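import Pool.Agent.W912.EC.Defs
import Pool.Agent.H622R2.Exp.A1

/-!
# Project EC: one stage of the construction
-/

set_option autoImplicit false

namespace Pool.Agent.W300.EC

open Pool.Agent.NPC Pool.Agent.H620R2.Gauge Pool.Agent.H622R2.Exp Pool.Agent.H622R2.Ckt
open Pool.Agent.W900.CH Pool.Agent.W912.EC
open Filter Finset

theorem poly_lt (p : Polynomial ℕ) : ∃ m₀ : ℕ, ∀ m ≥ m₀, p.eval m < 2 ^ m := by
  have key : Tendsto (fun m : ℕ => ((p.eval m : ℕ) : ℝ) / 2 ^ m) atTop (nhds 0) := by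
    induction p using Polynomial.induction_on' with
    | add p q hp hq =>
      have h := hp.add hq
      rw [add_zero] at h
      refine h.congr fun m => ?_
      rw [Polynomial.eval_add, Nat.cast_add, add_div]
    | monomial n a =>
      have h := (tendsto_pow_const_div_const_pow_of_one_lt n (r := (2 : ℝ)) (by norm_num)).const_mul
        (a : ℝ)
      rw [mul_zero] at h
      refine h.congr fun m => ?_
      rw [Polynomial.eval_monomial, Nat.cast_mul, Nat.cast_pow, mul_div_assoc]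
  have h1 := key.eventually (gt_mem_nhds (show (0 : ℝ) < 1 by norm_num))
  obtain ⟨m₀, h2⟩ := eventually_atTop.1 h1
  refine ⟨m₀, fun m hm => ?_⟩
  have h3 := h2 m hm
  rw [div_lt_one (by positivity)] at h3
  exact_mod_cast h3

theorem rep_inj : ∀ (e e' : ℕ) (r r' : List Bool),
    List.replicate e true ++ false :: r = List.replicate e' true ++ false :: r' →
    e = e' ∧ r = r' := by
  intro e
  induction e with
  | zero =>
    intro e' r r' h
    cases e' with
    | zero => simpa using h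
    | succ e' => simp [List.replicate_succ] at h
  | succ e ih =>
    intro e' r r' h
    cases e' with
    | zero => simp [List.replicate_succ] at h
    | succ e' =>
      rw [List.replicate_succ, List.replicate_succ, List.cons_append, List.cons_append,
        List.cons.injEq] at h
      obtain ⟨h1, h2⟩ := ih e' r r' h.2
      exact ⟨by rw [h1], h2⟩

theorem cds_eq (j e : ℕ) (w x : List Bool) : cds j e w x =
    List.replicate e true ++ false :: (x ++ (w ++ List.replicate (j - e) false)) := by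
  simp [cds]

theorem cds_inj {j n k e e' : ℕ} {w w' x x' : List Bool} (hx : x.length = n)
    (hx' : x'.length = n) (hw : w.length = k) (hw' : w'.length = k)
    (h : cds j e w x = cds j e' w' x') : e = e' ∧ w = w' ∧ x = x' := by
  rw [cds_eq, cds_eq] at h
  obtain ⟨h1, h2⟩ := rep_inj _ _ _ _ h
  obtain ⟨h3, h4⟩ := List.append_inj h2 (hx.trans hx'.symm)
  obtain ⟨h5, -⟩ := List.append_inj h4 (hw.trans hw'.symm)
  exact ⟨h1, h5, h3⟩

theorem cds_len {j n k e : ℕ} {w x : List Bool} (he : e ≤ j) (hx : x.length = n)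
    (hw : w.length = k) : (cds j e w x).length = n + k + j + 1 := by
  rw [cds_eq]
  simp only [List.length_append, List.length_replicate, List.length_cons, hx, hw]
  omega

/-- The strings of length `n`. -/
def Xs (n : ℕ) : Finset (List Bool) := (univ : Finset (Fin n → Bool)).image List.ofFn

theorem mem_Xs {n : ℕ} {x : List Bool} : x ∈ Xs n ↔ x.length = n := by
  unfold Xs
  rw [mem_image]
  constructor
  · rintro ⟨f, -, rfl⟩
    exact List.length_ofFn
  · intro h
    subst h
    exact ⟨x.get, mem_univ _, List.ofFn_get x⟩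

theorem card_Xs (n : ℕ) : (Xs n).card = 2 ^ n := by
  unfold Xs
  rw [card_image_of_injective _ List.ofFn_injective, card_univ, Fintype.card_fun,
    Fintype.card_bool, Fintype.card_fin]

/-- The strings to avoid. -/
theorem exists_key (j n k P : ℕ) (Q : ℕ → List Bool → Finset (List Bool))
    (hQ : ∀ e ≤ j, ∀ x, x.length = n → (Q e x).card ≤ 2 ^ P) (hk : j + n + P < k) :
    ∃ w : List Bool, w.length = k ∧ ∀ e ≤ j, ∀ x, x.length = n → ∀ e' ≤ j, ∀ x', x'.length = n →
      cds j e' w x' ∉ Q e x := by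
  classical
  by_contra hcon
  push Not at hcon
  obtain ⟨U, hU⟩ : ∃ U : Finset (List Bool),
      U = (range (j + 1)).biUnion (fun e => (Xs n).biUnion (fun x => Q e x)) := ⟨_, rfl⟩
  have hUc : U.card < 2 ^ k := by
    have h1 : U.card ≤ ∑ _e ∈ range (j + 1), ∑ _x ∈ Xs n, 2 ^ P := by
      rw [hU]
      refine card_biUnion_le.trans (sum_le_sum fun e he => ?_)
      refine card_biUnion_le.trans (sum_le_sum fun x hx => ?_)
      exact hQ e (Nat.lt_succ_iff.1 (mem_range.1 he)) x (mem_Xs.1 hx)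
    rw [sum_const, sum_const, card_range, card_Xs, smul_eq_mul, smul_eq_mul] at h1
    have h2 : j + 1 ≤ 2 ^ j := Nat.lt_two_pow_self
    calc U.card ≤ (j + 1) * (2 ^ n * 2 ^ P) := h1
      _ ≤ 2 ^ j * (2 ^ n * 2 ^ P) := Nat.mul_le_mul_right _ h2
      _ = 2 ^ (j + n + P) := by rw [pow_add, pow_add]; ring
      _ < 2 ^ k := Nat.pow_lt_pow_right (by norm_num) hk
  have hsel : ∀ w ∈ Xs k, ∃ (e' : ℕ) (x' : List Bool), x'.length = n ∧ cds j e' w x' ∈ U := by
    intro w hw
    obtain ⟨e, he, x, hx, e', he', x', hx', h⟩ := hcon w (mem_Xs.1 hw)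
    refine ⟨e', x', hx', ?_⟩
    rw [hU, mem_biUnion]
    refine ⟨e, mem_range.2 (Nat.lt_succ_of_le he), ?_⟩
    rw [mem_biUnion]
    exact ⟨x, mem_Xs.2 hx, h⟩
  choose! fe fx hfx hfU using hsel
  have hle : (Xs k).card ≤ U.card := by
    refine card_le_card_of_injOn (fun w => cds j (fe w) w (fx w)) (fun w hw => hfU w hw) ?_
    intro w hw w' hw' h
    exact (cds_inj (hfx w hw) (hfx w' hw') (mem_Xs.1 hw) (mem_Xs.1 hw') h).2.1
  rw [card_Xs] at hle
  omega

theorem main : S_STEP := by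
  classical
  intro M q g hg j A B T
  choose b hb using fun e : ℕ => run_local (M e)
  obtain ⟨c, hc⟩ : ∃ c : ℕ, c = 2 * (j + 1) := ⟨_, rfl⟩
  obtain ⟨P, hP⟩ : ∃ P : Polynomial ℕ, P = ∑ e ∈ range (j + 1), q e := ⟨_, rfl⟩
  have hqP : ∀ e ≤ j, ∀ m : ℕ, (q e).eval m ≤ P.eval m := by
    intro e he m
    rw [hP, Polynomial.eval_finsetSum]
    exact single_le_sum (f := fun e => (q e).eval m) (fun _ _ => Nat.zero_le _)
      (mem_range.2 (Nat.lt_succ_of_le he))
  obtain ⟨m₀, hm₀⟩ := poly_lt (P.comp (Polynomial.C c * Polynomial.X) +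
    Polynomial.C (2 * c) * Polynomial.X + Polynomial.C (2 * j + 4))
  obtain ⟨N, hNg, hNlarge⟩ := ((hg (c + 1)).and_eventually
    (eventually_ge_atTop (2 ^ m₀ + 2 ^ j + 8 + T + j + 2 + B + 1))).exists
  have hp1 : 0 < 2 ^ m₀ := Nat.two_pow_pos m₀
  have hp2 : 0 < 2 ^ j := Nat.two_pow_pos j
  have hNB : B < N := by omega
  have hNT : T + j + 1 ≤ N := by omega
  have hN1 : 2 ^ m₀ ≤ N := by omega
  have hN2 : 2 ^ j ≤ N := by omega
  have hN8 : 8 ≤ N := by omega
  obtain ⟨L, hL⟩ : ∃ L : ℕ, L = Nat.log 2 N := ⟨_, rfl⟩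
  have hLm : m₀ ≤ L := by rw [hL]; exact Nat.le_log_of_pow_le (by norm_num) hN1
  have hLj : j ≤ L := by rw [hL]; exact Nat.le_log_of_pow_le (by norm_num) hN2
  have hLN : 2 ^ L ≤ N := by rw [hL]; exact Nat.pow_log_le_self 2 (by omega)
  have hNL : N < 2 ^ (L + 1) := by rw [hL]; exact Nat.lt_pow_succ_log_self (by norm_num) N
  have hL3 : 8 ≤ 2 ^ L := by
    have h1 : 3 ≤ L := by
      rw [hL]
      exact Nat.le_log_of_pow_le (by norm_num) hN8
    calc 8 = 2 ^ 3 := by norm_num
      _ ≤ 2 ^ L := Nat.pow_le_pow_right (by norm_num) h1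
  obtain ⟨n, hn⟩ : ∃ n : ℕ, n = c * L := ⟨_, rfl⟩
  have hbig : P.eval n + 2 * n + (2 * j + 4) < N := by
    have h1 := hm₀ L hLm
    simp only [Polynomial.eval_add, Polynomial.eval_comp, Polynomial.eval_mul, Polynomial.eval_C,
      Polynomial.eval_X] at h1
    have h2 : 2 * c * L = 2 * n := by rw [hn]; ring
    rw [h2, ← hn] at h1
    omega
  have h2n : 2 ^ n = (2 ^ L) ^ c := by rw [hn, ← pow_mul, Nat.mul_comm c L]
  have hjn : j ≤ n := by
    rw [hn]
    have : 1 ≤ c := by omega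
    nlinarith
  obtain ⟨k, hk⟩ : ∃ k : ℕ, k = N - n - j - 1 := ⟨_, rfl⟩
  have hkN : n + k + j + 1 = N := by omega
  choose Q hQ1 hQ2 hQ3 using fun (e : ℕ) (x : List Bool) =>
    hb e A x (2 ^ (q e).eval x.length)
  obtain ⟨w, hw, hwQ⟩ := exists_key j n k (P.eval n) Q (by
    intro e he x hx
    refine (hQ1 e x).trans ?_
    rw [hx]
    exact Nat.pow_le_pow_right (by norm_num) (hqP e he n)) (by omega)
  obtain ⟨Acc, hAcc⟩ : ∃ Acc : ℕ → List Bool → Prop, Acc = fun e x =>
      (M e).run A x (2 ^ (q e).eval x.length) [] = some [true] := ⟨_, rfl⟩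
  obtain ⟨A', hA'⟩ : ∃ A' : Oracle, A' = fun y =>
      if ∃ e x, e ≤ j ∧ x.length = n ∧ y = cds j e w x then
        decide (∃ e x, e ≤ j ∧ x.length = n ∧ y = cds j e w x ∧ Acc e x) else A y := ⟨_, rfl⟩
  have hA'1 : ∀ y, (¬ ∃ e x, e ≤ j ∧ x.length = n ∧ y = cds j e w x) → A' y = A y := by
    intro y hy
    rw [hA']
    exact if_neg hy
  have hA'2 : ∀ e ≤ j, ∀ x, x.length = n → (A' (cds j e w x) = true ↔ Acc e x) := by
    intro e he x hx
    have h1 : ∃ e' x', e' ≤ j ∧ x'.length = n ∧ cds j e w x = cds j e' w x' :=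
      ⟨e, x, he, hx, rfl⟩
    rw [hA']
    show (if ∃ e' x', e' ≤ j ∧ x'.length = n ∧ cds j e w x = cds j e' w x' then
        decide (∃ e' x', e' ≤ j ∧ x'.length = n ∧ cds j e w x = cds j e' w x' ∧ Acc e' x')
        else A (cds j e w x)) = true ↔ Acc e x
    rw [if_pos h1, decide_eq_true_iff]
    constructor
    · rintro ⟨e', x', he', hx', h2, h3⟩
      obtain ⟨h4, -, h5⟩ := cds_inj hx hx' hw hw h2
      rw [h4, h5]
      exact h3
    · intro h2
      exact ⟨e, x, he, hx, rfl, h2⟩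
  have hlen : ∀ e ≤ j, ∀ x : List Bool, x.length = n → (cds j e w x).length = N := by
    intro e he x hx
    rw [cds_len he hx hw, hkN]
  obtain ⟨W, hW⟩ : ∃ W : Finset (List Bool),
      W = (range (j + 1)).biUnion (fun e => (Xs n).image (fun x => cds j e w x)) := ⟨_, rfl⟩
  have hsubW : {y | A' y ≠ A y} ⊆ (W : Set (List Bool)) := by
    intro y hy
    by_contra hyW
    apply hy
    apply hA'1
    rintro ⟨e, x, he, hx, rfl⟩
    apply hyW
    rw [hW, mem_coe, mem_biUnion]
    refine ⟨e, mem_range.2 (Nat.lt_succ_of_le he), ?_⟩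
    rw [mem_image]
    exact ⟨x, mem_Xs.2 hx, rfl⟩
  have hWc : W.card ≤ (j + 1) * 2 ^ n := by
    have h1 : W.card ≤ ∑ _e ∈ range (j + 1), 2 ^ n := by
      rw [hW]
      refine card_biUnion_le.trans (sum_le_sum fun e _ => ?_)
      rw [← card_Xs n]
      exact card_image_le
    rwa [sum_const, card_range, smul_eq_mul] at h1
  obtain ⟨B', hB'⟩ : ∃ B' : ℕ, B' = N + ∑ e ∈ range (j + 1),
      (b e).eval (n + 2 ^ (q e).eval n) := ⟨_, rfl⟩
  have hB'N : N ≤ B' := by rw [hB']; exact Nat.le_add_right _ _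
  refine ⟨n, N, (j + 1) * 2 ^ n, B', w, A', hNB, hB'N, hjn, ?_, ?_,
    W.finite_toSet.subset hsubW, ?_, ?_, hlen, ?_⟩
  · rw [h2n, hc, pow_mul]
    apply Nat.pow_le_pow_left
    have h1 : 2 ^ (L + 1) = 2 * 2 ^ L := by rw [pow_succ]; ring
    rw [h1] at hNL
    have h2 : 8 * 2 ^ L ≤ 2 ^ L * 2 ^ L := Nat.mul_le_mul_right _ hL3
    rw [sq]
    refine le_trans ?_ h2
    omega
  · intro y hy
    apply hA'1
    rintro ⟨e, x, he, hx, rfl⟩
    exact hy (hlen e he x hx)
  · refine (Set.ncard_le_ncard hsubW W.finite_toSet).trans ?_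
    rw [Set.ncard_coe_finset]
    exact hWc
  · intro m hm
    refine le_trans ?_ (hNg m hm).le
    have h1 : 2 ^ n ≤ N ^ c := by
      rw [h2n]
      exact Nat.pow_le_pow_left hLN c
    have h2 : T + (j + 1) * 2 ^ n ≤ N ^ (c + 1) := by
      have h3 : 1 ≤ N ^ c := Nat.one_le_pow _ _ (by omega)
      calc T + (j + 1) * 2 ^ n ≤ T * N ^ c + (j + 1) * N ^ c := by
            refine Nat.add_le_add ?_ (Nat.mul_le_mul_left _ h1)
            exact Nat.le_mul_of_pos_right T h3
        _ = (T + j + 1) * N ^ c := by ring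
        _ ≤ N * N ^ c := Nat.mul_le_mul_right _ hNT
        _ = N ^ (c + 1) := by rw [pow_succ]; ring
    exact_mod_cast h2
  · intro A'' hA'' e he x hx
    rw [hA'' _ (by rw [hlen e he x hx]; exact hB'N), hA'2 e he x hx, hAcc]
    show (M e).run A x (2 ^ (q e).eval x.length) [] = some [true] ↔ _
    rw [hQ3 e x A'' ?_]
    intro y hy
    have h1 : y.length ≤ B' := by
      have h2 := hQ2 e x y hy
      rw [hx] at h2
      refine h2.trans ?_
      rw [hB']
      refine le_trans ?_ (Nat.le_add_left _ _)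
      exact single_le_sum (f := fun e => (b e).eval (n + 2 ^ (q e).eval n))
        (fun _ _ => Nat.zero_le _) (mem_range.2 (Nat.lt_succ_of_le he))
    rw [hA'' y h1]
    apply hA'1
    rintro ⟨e', x', he', hx', rfl⟩
    exact hwQ e he x hx e' he' x' hx' hy

end Pool.Agent.W300.EC
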